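import Pool.Agent.Helper597.AS

set_option autoImplicit false

namespace Pool.Agent.Results.MP_92191b_al.LargeAlphabet

/-- For all `m ≥ 2` and all `k > m * m!` the wreath product `S_k wr S_m` in its power action on
`[k]^m` is almost synchronizing: together with any non-uniform self-map `f` of `[k]^m` it generates
a monoid containing a constant map. -/
theorem result :
    ∀ k m : ℕ, 2 ≤ m → m * m.factorial < k →
    ∀ f : (Fin m → Fin k) → (Fin m → Fin k),
      (∃ a b : Fin m → Fin k,
        (Finset.univ.filter (fun x => f x = f a)).card ≠
          (Finset.univ.filter (fun x => f x = f b)).card) →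
      ∃ c ∈ Submonoid.closure
          ({g : Function.End (Fin m → Fin k) |
              ∃ (σ : Fin m → Equiv.Perm (Fin k)) (π : Equiv.Perm (Fin m)),
                g = fun x i => σ i (x (π i))} ∪ {(f : Function.End (Fin m → Fin k))}),
        ∃ y : Fin m → Fin k, ∀ x, c x = y := by
  intro k m hm hk f hf
  exact Pool.Agent.Helper597.AS.final m k hm hk f hf

end Pool.Agent.Results.MP_92191b_al.LargeAlphabet
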